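import Pool.Agent.Mg.F2e8011.G06f54b

set_option autoImplicit false

namespace Pool.Agent.MP_e16607_lc.Old.L2InNPIff

/-- `L₂` is in NP if and only if NP = coNP. -/
theorem result :
    Pool.Agent.MP_e16607_lc.langCdisc ∈ N68a2faeb.NP ↔ N68a2faeb.NP = N68a2faeb.coNP :=
  Pool.Agent.MP_e16607_lc.langCdisc_mem_iff

end Pool.Agent.MP_e16607_lc.Old.L2InNPIff
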